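import Pool.Agent.Results.MP_0b9e0b_ag.MultiquadraticProducts
import Pool.Agent.V11207.SF.TPB

/-!
# The finiteness of `Ш[2^∞]` for families of curves over infinitely many number fields of unbounded
# degree, reduced to finitely many curves over `ℚ`: exact proportions, and infinite towers

`E_b` is the quadratic twist by `b` of the modular curve `X_0(14)`, an elliptic curve without complex
multiplication.  The class `Adm` consists of the squarefree integers, positive or negative, `1` modulo
`4`, squares modulo `7`, whose prime divisors split completely in `ℚ(i, √2, √-7)` or are inert in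
`ℚ(√2)` and in `ℚ(√-7)`, and are inert in the cyclotomic `ℤ₃`-extension of `ℚ`.

Let `S` be ANY finite subset of the class, independent modulo squares, `F₀ = ℚ(√d : d ∈ S)`, and let `B`
be any finite subset of the class.  Nothing is assumed about the ranks and the Tate-Shafarevich groups of
the curves `E_b`, `b ∈ B`, over `F₀`.  We compare `F₀` with extensions `F` of large degree:

* `F = K(√d : d ∈ S)`, for all the layers `K` of the cyclotomic `ℤ₃`-extension of `ℚ`;
* `F = K(√D, √d : d ∈ S)`, for all the layers `K` and all the `D` of the class such that the twists of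
  `X_0(14)` by the squarefree parts of the products `D b ∏_{d ∈ U} d`, `b ∈ B`, `U ⊆ S`, have rank zero and
  `Ш[2] = 0`.  If the elements of `B` are different modulo squares and products of elements of `S`, these
  `D` have the exact proportion `c^(#B 2^#S)`, `c = 0.419...`, in the class;
* the composites of all the layers `K` with the members of an infinite tower of quadratic extensions
  of `F₀`.

In all these cases the rank of `E_b(F)` is the rank of `E_b(F₀)`, and `Ш(E_b/F)[2^∞]` is finite if and only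
if `Ш(E_b/F₀)[2^∞]` is finite, if and only if this is so for the `2^#S` twists of `E_b` over `ℚ` by the
products of elements of `S`; the exponent of `Ш(E_b/F)[2^∞]` is bounded in terms of the exponents for
these curves over `ℚ`, uniformly in `K`.

The proof.  Restriction and corestriction between `F` and `F(√D)` reduce the second statement to the
twist `E_{b D}` over `F`, whose 2-primary part is killed by `2^#S` (2-descent over `K`, library).  The
first statement uses the comparison of `K` and `ℚ` for all the twists (`TwoTorsionStability`, library).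
The proportion is the joint law for `#B 2^#S` twists (team, `MultiquadraticProducts` of problem
`MP_0b9e0b_ag`).
-/

set_option autoImplicit false

open NumberField IsDedekindDomain Filter Topology

namespace Pool.Agent.Results.MP_78d38b_nt.FinitenessInExtensions

open scoped Classical

open Pool.Agent.TH841.NF.D (Sha)

open Pool.Agent.Results.MP_787500_nt.LayersBlochKatoLaw (base rank twist multiquadratic
  cyclotomic Adm Small count cc Proportion Many adm_iff)

open Pool.Agent.Results.MP_0b9e0b_ag.MultiquadraticProducts (IsBase IsFamily Criterion cl_iff crit_ex)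

/-- The 2-primary part of `Ш(W/F)` is finite. -/
def FiniteSha2 (F : Type) [Field F] [NumberField F] (W : WeierstrassCurve ℤ) : Prop :=
  Finite (AddCommGroup.primaryComponent (Sha (base W F)) 2)

/-- The 2-primary part of the group `G` is killed by `2^n`. -/
def Killed (G : Type) [AddCommGroup G] (n : ℕ) : Prop :=
  ∀ (k : ℕ) (x : G), 2 ^ k • x = 0 → 2 ^ n • x = 0

/-- The curve `y² = x³ + 13 b t x² + 128 b² t² x` over `ℚ`, the twist of `X_0(14)` by `b t`. -/
def twistQ (b t : ℤ) : WeierstrassCurve ℚ :=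
  ⟨0, ((13 * b * t : ℤ) : ℚ), 0, ((128 * b ^ 2 * t ^ 2 : ℤ) : ℚ), 0⟩

/-- For the twists of `E_b` over `ℚ` by the `2^#S` products of elements of `S` the 2-primary part of `Ш`
is finite. -/
def FiniteTwists (S : Finset ℤ) (b : ℤ) : Prop := ∀ T ⊆ S,
  Finite (AddCommGroup.primaryComponent (Pool.Agent.TH841.SH.D.Sha (twistQ b (∏ d ∈ T, d))) 2)

/-- For the twists of `E_b` over `ℚ` by the `2^#S` products of elements of `S` the 2-primary part of `Ш`
is killed by `2^n`. -/
def KilledTwists (S : Finset ℤ) (b : ℤ) (n : ℕ) : Prop := ∀ T ⊆ S,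
  Killed (Pool.Agent.TH841.SH.D.Sha (twistQ b (∏ d ∈ T, d))) n

/-- The rank of `E_b` over `F` is the rank over `F₀`, the 2-primary part of `Ш(E_b/F)` is finite if and
only if the 2-primary part of `Ш(E_b/F₀)` is finite, if and only if this is so for the twists of `E_b` over
`ℚ`, and if these are killed by `2^n`, then it is killed by `2^(#S + n + e)`. -/
def Reduces (F₀ F : Type) [Field F₀] [NumberField F₀] [Field F] [NumberField F] (S : Finset ℤ)
    (b : ℤ) (e : ℕ) : Prop :=
  rank F (twist b) = rank F₀ (twist b) ∧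
  (FiniteSha2 F (twist b) ↔ FiniteSha2 F₀ (twist b)) ∧
  (FiniteSha2 F₀ (twist b) ↔ FiniteTwists S b) ∧
  ∀ n, KilledTwists S b n → Killed (Sha (base (twist b) F)) (S.card + n + e)

/-- For all the layers `K` of the cyclotomic `ℤ₃`-extension (`K` is a subfield of odd degree of a
`3 ^ (m + 1)`-th cyclotomic field), `F₀ = ℚ(√d : d ∈ S)`, `F = K(√d : d ∈ S')` and all the curves `E_b`,
`b ∈ B`. -/
def ForLayers (B S S' : Finset ℤ) (e : ℕ) : Prop :=
  ∀ (m : ℕ) (K F₀ F : IntermediateField ℚ ℂ) [NumberField K] [NumberField F₀] [NumberField F],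
    K ≤ cyclotomic (3 ^ (m + 1)) → Odd (Module.finrank ℚ K) → F₀ = multiquadratic S →
    F = multiquadratic S' ⊔ K → ∀ b ∈ B, Reduces F₀ F S b e

/-- For all the layers `K` the degree of `F = K(√d : d ∈ S')` is `r [K : ℚ]` times the degree of
`F₀ = ℚ(√d : d ∈ S)`. -/
def Degrees (S S' : Finset ℤ) (r : ℕ) : Prop :=
  ∀ (m : ℕ) (K F₀ F : IntermediateField ℚ ℂ) [NumberField K] [NumberField F₀] [NumberField F],
    K ≤ cyclotomic (3 ^ (m + 1)) → Odd (Module.finrank ℚ K) → F₀ = multiquadratic S →
    F = multiquadratic S' ⊔ K →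
    Module.finrank ℚ F = r * Module.finrank ℚ K * Module.finrank ℚ F₀

/-! ### Proofs -/

lemma rank_rr (F : Type) [Field F] [NumberField F] {b : ℤ} (hb : Adm b) :
    rank F (twist b) = Pool.Agent.Y682.XD.RR F b :=
  (Pool.Agent.Y682.XF.trans_D F hb.2.1).1

lemma cl_of {S : Finset ℤ} (hS : ∀ d ∈ S, Adm d) : ∀ d ∈ S, Pool.Agent.V11291.RG.Cl d :=
  fun d hd => (cl_iff d).1 (hS d hd)

lemma degrees_of {S S' : Finset ℤ} {r : ℕ} (hS : ∀ d ∈ S, Adm d)
    (hI : ∀ T ⊆ S, T.Nonempty → ¬ IsSquare (∏ d ∈ T, d)) (hS' : ∀ d ∈ S', Adm d)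
    (hI' : ∀ T ⊆ S', T.Nonempty → ¬ IsSquare (∏ d ∈ T, d)) (hr : 2 ^ S'.card = r * 2 ^ S.card) :
    Degrees S S' r := by
  intro m K F₀ F _ _ _ hK hodd hF₀ hF
  have hbot : NumberField (⊥ : IntermediateField ℚ ℂ) :=
    { to_charZero := inferInstance, to_finiteDimensional := inferInstance }
  have h1 := Pool.Agent.V11207.SF.deg_mq (fun d hd => (hS' d hd).1.ne_zero) hI' K F hodd hF
  have h2 := Pool.Agent.V11207.SF.deg_mq (fun d hd => (hS d hd).1.ne_zero) hI
    (⊥ : IntermediateField ℚ ℂ) F₀ (by rw [IntermediateField.finrank_bot]; exact odd_one)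
    (by rw [sup_bot_eq]; exact hF₀)
  rw [IntermediateField.finrank_bot, mul_one] at h2
  rw [h1, h2, hr]
  ring

/-- the base case -/
lemma base_case {B S : Finset ℤ} (hS : IsBase S) (hB : ∀ b ∈ B, Adm b) : ForLayers B S S 0 := by
  intro m K F₀ F _ _ _ hK hodd hF₀ hF b hb
  obtain ⟨h1, h2, h3, h4⟩ := Pool.Agent.V11207.SF.base_twist (cl_of hS.1) hS.2
    ((cl_iff b).1 (hB b hb)) m K hK hodd F₀ F hF₀ hF
  refine ⟨?_, ?_, h3, fun n hn => ?_⟩
  · rw [rank_rr F (hB b hb), rank_rr F₀ (hB b hb), h1]
  · exact h2.trans h3.symm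
  · exact h4 n hn

/-- from `F₀` to `F'` in two steps -/
lemma two_steps {B S S' : Finset ℤ} (hS : IsBase S) (hB : ∀ b ∈ B, Adm b) {e : ℕ}
    (h : ∀ (m : ℕ) (K F F' : IntermediateField ℚ ℂ) [NumberField K] [NumberField F]
      [NumberField F'], K ≤ cyclotomic (3 ^ (m + 1)) → Odd (Module.finrank ℚ K) →
      F = multiquadratic S ⊔ K → F' = multiquadratic S' ⊔ K → ∀ b ∈ B,
        rank F' (twist b) = rank F (twist b) ∧
        (FiniteSha2 F' (twist b) ↔ FiniteSha2 F (twist b)) ∧
        ∀ n, Killed (Sha (base (twist b) F)) (S.card + n) →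
          Killed (Sha (base (twist b) F')) (S.card + n + e)) : ForLayers B S S' e := by
  intro m K F₀ F' _ _ _ hK hodd hF₀ hF' b hb
  have hN : NumberField (multiquadratic S ⊔ K : IntermediateField ℚ ℂ) := by
    have h1 : NumberField (multiquadratic S) := by
      rw [← hF₀]
      infer_instance
    exact Pool.Agent.V11207.SF.nf_sup _ _
  obtain ⟨h1, h2, h3, h4⟩ := base_case hS hB m K F₀ (multiquadratic S ⊔ K) hK hodd hF₀ rfl b hb
  obtain ⟨h5, h6, h7⟩ := h m K (multiquadratic S ⊔ K) F' hK hodd rfl hF' b hb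
  exact ⟨h5.trans h1, h6.trans h2, h3, fun n hn => h7 n (h4 n hn)⟩

lemma step_case {B S : Finset ℤ} (hS : IsBase S) (hB : ∀ b ∈ B, Adm b) {D : ℤ} (hD : Adm D)
    (hc : Criterion B S D) : ForLayers B S (insert D S) 1 := by
  refine two_steps hS hB fun m K F F' _ _ _ hK hodd hF hF' b hb => ?_
  have hex := (crit_ex hB hS.1 hD).1 hc
  have hb' := (cl_iff b).1 (hB b hb)
  obtain ⟨h1, h2, -⟩ := Pool.Agent.V11207.SF.step (cl_of hS.1) hb' ((cl_iff D).1 hD)
    (fun T hT D' k => hex b hb T hT D' k) m K hK hodd F F' hF hF'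
  have h3 := Pool.Agent.V11207.SF.step_fin (cl_of hS.1) hb' ((cl_iff D).1 hD)
    (fun T hT D' k => hex b hb T hT D' k) m K hK hodd F F' hF hF'
  refine ⟨?_, h3, fun n hn => h2 (S.card + n) (Nat.le_add_right _ _) hn⟩
  rw [rank_rr F' (hB b hb), rank_rr F (hB b hb), h1]

/-- **Main theorem.**  `S` is a finite subset of the class, independent modulo squares,
`F₀ = ℚ(√d : d ∈ S)`, and `B` is a finite subset of the class.
(1) For all the layers `K` of the cyclotomic `ℤ₃`-extension of `ℚ`, `F = K(√d : d ∈ S)`, of degree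
`[K : ℚ]` over `F₀`, and all `b ∈ B`: the ranks of `E_b(F)` and `E_b(F₀)` are equal, `Ш(E_b/F)[2^∞]` is
finite if and only if `Ш(E_b/F₀)[2^∞]` is finite, if and only if this is so for the `2^#S` twists of `E_b`
over `ℚ` by the products of elements of `S`; and if it is killed by `2^n` for these twists, then
`Ш(E_b/F)[2^∞]` is killed by `2^(n + #S)`.
(2) The same is true for `F = K(√D, √d : d ∈ S)`, with `2^(n + #S + 1)`, if `D` is in the class and for
the squarefree parts `D'` of the products `D b ∏_{d ∈ U} d`, `b ∈ B`, `U ⊆ S`, the rank of `E_{D'}` is zero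
and `Ш(E_{D'})[2] = 0` over all the layers (`Criterion B S D`).  If `D` is independent of `S` modulo
squares, the degree of `F` over `F₀` is `2 [K : ℚ]`.
(3) If the elements of `B` are different modulo squares and products of elements of `S`, then the
proportion of the `D` with `Criterion B S D` is exactly `c^(#B 2^#S)`, among the positive `D` of the
class, ordered by absolute value, and also among the negative ones; `0.4194 < c < 0.4195`.  The number
of the `D` of the class of a given sign with `|D| ≤ X` is at least a positive constant times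
`X (log X)^(-3/4)`.
(4) For these `B` and `S` and every sequence of signs there are different numbers `d_0, d_1, …` with these
signs, not in `S`, such that for all `n` the statement in (1) is true for the fields
`F = K(√d : d ∈ S ∪ {d_0, …, d_{n-1}})`, of degree `2^n [K : ℚ]` over `F₀`, with `2^(n' + #S + n)` in place
of `2^(n' + #S)`. -/
theorem result :
    (∀ S : Finset ℤ, IsBase S → Degrees S S 1 ∧ ∀ B : Finset ℤ, (∀ b ∈ B, Adm b) →
      ForLayers B S S 0 ∧ ∀ D : ℤ, Adm D →
        ((∀ T ⊆ S, ¬ IsSquare (D * ∏ d ∈ T, d)) → Degrees S (insert D S) 2) ∧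
        (Criterion B S D → ForLayers B S (insert D S) 1)) ∧
    (∀ s : ℤ, (s = 1 ∨ s = -1) → Many s ∧ ∀ S B : Finset ℤ, IsBase S → IsFamily B S →
      Proportion (Criterion B S) s (cc ^ (B.card * 2 ^ S.card))) ∧
    (0.4194 < cc ∧ cc < 0.4195) ∧
    ∀ S B : Finset ℤ, IsBase S → IsFamily B S → ∀ σ : ℕ → ℤ, (∀ i, σ i = 1 ∨ σ i = -1) →
      ∃ d : ℕ → ℤ, (∀ i, 0 < σ i * d i) ∧ Function.Injective d ∧ (∀ i, d i ∉ S) ∧
        ∀ n, Degrees S (S ∪ (Finset.range n).image d) (2 ^ n) ∧
          ForLayers B S (S ∪ (Finset.range n).image d) n := by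
  refine ⟨fun S hS => ⟨degrees_of hS.1 hS.2 hS.1 hS.2 (one_mul _).symm, fun B hB =>
      ⟨base_case hS hB, fun D hD => ⟨fun hind => ?_, step_case hS hB hD⟩⟩⟩,
    Pool.Agent.Results.MP_0b9e0b_ag.MultiquadraticProducts.result.2.1,
    Pool.Agent.Results.MP_0b9e0b_ag.MultiquadraticProducts.result.2.2, fun S B hS hB σ hσ => ?_⟩
  · obtain ⟨hDS, hI⟩ := Pool.Agent.V11291.RG.inde_insert (D := D) hS.2 hind
    refine degrees_of hS.1 hS.2 (fun d hd => ?_) hI ?_
    · rcases Finset.mem_insert.1 hd with rfl | hd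
      · exact hD
      · exact hS.1 d hd
    · rw [Finset.card_insert_of_notMem hDS, pow_succ, mul_comm]
  · have hB' : ∀ b ∈ B, Pool.Agent.V11291.RG.Cl b := fun b hb => (cl_iff b).1 (hB.1 b hb)
    obtain ⟨d, h1, h2, h3, h4⟩ := Pool.Agent.V11291.RG.towerB hB' (cl_of hS.1) hS.2 hB.2 σ hσ
    refine ⟨d, h1, h2, h3, fun n => ⟨?_, two_steps hS hB.1
      fun m K F F' _ _ _ hK hodd hF hF' b hb => ?_⟩⟩
    · refine degrees_of hS.1 hS.2 (fun x hx => (cl_iff x).2 ((h4 n).1 x hx)) (h4 n).2.1 ?_
      rw [Finset.card_union_of_disjoint, Finset.card_image_of_injective _ h2, Finset.card_range,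
        pow_add, mul_comm]
      rw [Finset.disjoint_left]
      intro x hx hx'
      obtain ⟨i, -, rfl⟩ := Finset.mem_image.1 hx'
      exact h3 i hx
    · obtain ⟨g1, g2⟩ := Pool.Agent.V11207.SF.tower_fin hB'
        (fun n => ⟨(h4 n).1, (h4 n).2.2.2⟩) m K hK hodd F hF n F' hF' b hb
      refine ⟨?_, g2, fun e he => ?_⟩
      · rw [rank_rr F' (hB.1 b hb), rank_rr F (hB.1 b hb), g1]
      · exact Pool.Agent.V11207.SF.tower_kl hB' (fun n => ⟨(h4 n).1, (h4 n).2.2.2⟩) m K hK hodd F hF
          n F' hF' b hb e he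

end Pool.Agent.Results.MP_78d38b_nt.FinitenessInExtensions
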