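import Mathlib
import Pool.Agent.TH841.PM.Fin2
import Pool.Agent.TH841.PM.PenZ

/-!
# Several pencils over varying multiquadratic fields: all the joint moments off a set of density zero

`W_{i,t} : y² = (x - e_{i,1}(t)) (x - e_{i,2}(t)) (x - e_{i,3}(t))`, `i = 0, ..., m`, are pencils of elliptic
curves, the differences of whose roots are the products of a common twisting polynomial `D₀_i(t)` and of
`n_{i,0}`, `n_{i,1}`, `n_{i,2}` pairwise different irreducible polynomials, with `2 n_{i,k}` smaller than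
`n_{i,0} + n_{i,1} + n_{i,2}`, and `F_t = ℚ(√D₁(t), ..., √D_s(t))`. There is one set `Z` of integers of density
zero, uniformly in all the intervals `(N, N + M]` with `|N| ≤ M ^ L`, such that over the `t` outside of `Z`
all the moments of `2 ^ (∑ i, (rank W_{i,t}(F_t) + corank Ш(W_{i,t} / F_t)[2^∞]))` are bounded.
-/

set_option autoImplicit false

namespace Pool.Agent.Results.MP_78d38b_nt.JointPencilFields

open Finset Polynomial

open Pool.Agent.TH841.NF.D (HasDiv crk rk)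

open Pool.Agent.TH841.PM (MZ)

open Pool.Agent.W307.SE (SN SN_nonneg)

/-- the curve `y² = x³ + A x + B` over `F` -/
def EF (A B : ℤ) (F : Type) [Field F] : WeierstrassCurve F := ⟨0, 0, 0, (A : F), (B : F)⟩

/-- the number field `F` is generated by square roots of the integers `d i` -/
def Gen (F : Type) [Field F] [NumberField F] {s : ℕ} (d : Fin s → ℤ) : Prop :=
  ∃ x : Fin s → F, (∀ i, x i ^ 2 = (d i : F)) ∧
    IntermediateField.adjoin ℚ (Set.range x) = ⊤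

open Classical in
/-- a set of density zero, uniformly in all short intervals -/
def DZ (Z : Set ℤ) : Prop := ∀ (L : ℕ) (ε : ℝ), 0 < ε → ∃ M0 : ℕ, ∀ (N : ℤ) (M : ℕ), M0 ≤ M →
  |N| ≤ (M : ℤ) ^ L → (((Ioc N (N + (M : ℤ))).filter (fun t => t ∈ Z)).card : ℝ) ≤ ε * M

open Classical in
/-- the integers `t` with `N < t ≤ N + M` outside of `Z` -/
noncomputable def Par (Z : Set ℤ) (N : ℤ) (M : ℕ) : Finset ℤ :=
  (Ioc N (N + (M : ℤ))).filter (fun t => t ∉ Z)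

lemma dz_fin' (Z : Set ℤ) (h : Z.Finite) : Pool.Agent.TH841.PM.DZ Z :=
  Pool.Agent.TH841.PM.dz_fin h

/-- the polynomials `u_k = a_k ∏_j f_{k,j}` -/
noncomputable def U {n : Fin 3 → ℕ} (a : Fin 3 → ℤ) (f : ∀ k : Fin 3, Fin (n k) → ℤ[X])
    (k : Fin 3) : ℤ[X] := C (a k) * ∏ j, f k j

open Classical in
/-- **Theorem.** For `i = 0, ..., m` let `e_{i,1}`, `e_{i,2}`, `e_{i,3}` be polynomials in `t` with integer
coefficients, `(x - e_{i,1}) (x - e_{i,2}) (x - e_{i,3}) = x³ + A_i x + B_i`,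
`e_{i,2} - e_{i,1} = D₀_i u_{i,0}`, `e_{i,3} - e_{i,1} = D₀_i u_{i,1}`, `u_{i,2} = u_{i,0} - u_{i,1}`, where
`D₀_i ≠ 0` and `u_{i,k}` is the product of a nonzero integer and of `n_{i,k}` irreducible polynomials of
positive degree, which, for given `i`, are pairwise non-associated and do not divide `D₀_i`, and
`2 n_{i,k} < n_{i,0} + n_{i,1} + n_{i,2}` for `k = 0, 1, 2`. Let `D₁, ..., D_s` be nonzero polynomials
with integer coefficients not divisible by any of these irreducible polynomials. There is a set `Z` of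
density zero, uniformly in short intervals, such that for all `k` and `L` there is `C` with the
following property. Let `M ≥ 1`, `|N| ≤ M ^ L`, and let `P` be the set of the integers `t ∉ Z` with
`N < t ≤ N + M`, `F t = ℚ(√D₁(t), ..., √D_s(t))`, and `W t i` the curve `y² = x³ + A_i(t) x + B_i(t)` over
`F t`. Then the sum over `t` in `P` of the `k`-th powers of
`2 ^ (∑ i, (rank W_{i,t}(F_t) + corank Ш(W_{i,t} / F_t)[2^∞]))` is at most `C M`, and at most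
`C M / 2 ^ (k r)` of the `t` in `P` have `∑ i, (rank + corank) ≥ r`. -/
theorem result (m : ℕ) (n : Fin (m + 1) → Fin 3 → ℕ) (a : Fin (m + 1) → Fin 3 → ℤ)
    (f : ∀ (i : Fin (m + 1)) (k : Fin 3), Fin (n i k) → ℤ[X]) (ha : ∀ i k, a i k ≠ 0)
    (hf : ∀ i k j, Irreducible (f i k j) ∧ 0 < (f i k j).natDegree)
    (hf' : ∀ i k j k' j', (⟨k, j⟩ : Σ k : Fin 3, Fin (n i k)) ≠ ⟨k', j'⟩ →
      ¬ Associated (f i k j) (f i k' j'))
    (hU : ∀ i, U (a i) (f i) 0 - U (a i) (f i) 1 = U (a i) (f i) 2)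
    (hn : ∀ i k, 2 * n i k < n i 0 + n i 1 + n i 2)
    (D₀ : Fin (m + 1) → ℤ[X]) (hD₀ : ∀ i, D₀ i ≠ 0) (hDf₀ : ∀ i k j, ¬ f i k j ∣ D₀ i)
    (s : ℕ) (D : Fin s → ℤ[X]) (hD : ∀ l, D l ≠ 0) (hDf : ∀ l i k j, ¬ f i k j ∣ D l)
    (A B e₁ e₂ e₃ : Fin (m + 1) → ℤ[X])
    (he : ∀ i, ∀ t x : ℤ, x ^ 3 + (A i).eval t * x + (B i).eval t =
      (x - (e₁ i).eval t) * (x - (e₂ i).eval t) * (x - (e₃ i).eval t))
    (h12 : ∀ i, e₂ i - e₁ i = D₀ i * U (a i) (f i) 0)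
    (h13 : ∀ i, e₃ i - e₁ i = D₀ i * U (a i) (f i) 1) :
    ∃ Z : Set ℤ, DZ Z ∧
      (∀ t, t ∉ Z → (∀ i, 4 * (A i).eval t ^ 3 + 27 * (B i).eval t ^ 2 ≠ 0) ∧
        ∀ l, (D l).eval t ≠ 0) ∧
      ∀ k L : ℕ, ∃ C : ℝ, ∀ (N : ℤ) (M : ℕ), 1 ≤ M → |N| ≤ (M : ℤ) ^ L →
      ∀ (F : ℤ → Type) [∀ t, Field (F t)] [∀ t, NumberField (F t)],
      (∀ t ∈ Par Z N M, Gen (F t) (fun l => (D l).eval t)) →
      ∀ W : ∀ t, Fin (m + 1) → WeierstrassCurve (F t),
      (∀ t i, W t i = EF ((A i).eval t) ((B i).eval t) (F t)) →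
      (∀ t ∈ Par Z N M, ∀ i, BddAbove {q | HasDiv (W t i) q}) ∧
      ∑ t ∈ Par Z N M, ((2 : ℝ) ^ (∑ i, (rk (W t i) + crk (W t i)))) ^ k ≤ C * M ∧
      ∀ r : ℕ, (((Par Z N M).filter
        (fun t => r ≤ ∑ i, (rk (W t i) + crk (W t i)))).card : ℝ) ≤ C * M / 2 ^ (k * r) := by
  have hirr : ∀ i, Pool.Agent.TH841.PT.Irr (Pool.Agent.TH841.TR.fp (f i)) := fun i =>
    ⟨fun x => (hf i x.1 x.2).1, fun x => (hf i x.1 x.2).2, fun x y hxy => hf' i x.1 x.2 y.1 y.2 hxy⟩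
  have hUP : ∀ i k, U (a i) (f i) k = Pool.Agent.TH841.TR.UP (a i) (f i) k := fun i k => rfl
  have hne : ∀ (i : Fin (m + 1)) (T : Finset (Fin s)), D₀ i * ∏ l ∈ T, D l ≠ 0 := fun i T =>
    mul_ne_zero (hD₀ i) (prod_ne_zero_iff.2 fun l _ => hD l)
  choose Z hZ1 hZ2 hZ3 using fun x : Fin (m + 1) × Finset (Fin s) =>
    Pool.Agent.TH841.PM.penZ Pool.Agent.TH841.PM.tavz (a x.1) (f x.1) (ha x.1) (hirr x.1)
      (by rw [← hUP, ← hUP, ← hUP]; exact hU x.1) (D₀ x.1 * ∏ l ∈ x.2, D l) (hne x.1 x.2)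
      (fun k j => Pool.Agent.TH841.PT.prod_ndvd ((hirr x.1).irr ⟨k, j⟩) (hDf₀ x.1 k j)
        (fun l => hDf l x.1 k j) x.2) (hn x.1)
  have hsub : ∀ x, Z x ⊆ ⋃ x ∈ (univ : Finset (Fin (m + 1) × Finset (Fin s))), Z x := fun x t ht => by
    simp only [Set.mem_iUnion]
    exact ⟨x, mem_univ _, ht⟩
  have hZD := dz_fin' (⋃ l ∈ (univ : Finset (Fin s)), {t : ℤ | (D l).eval t = 0}) (by
    refine Set.Finite.biUnion (Finset.finite_toSet _) fun l _ => Pool.Agent.TH841.PM.zeros_fin _ (hD l))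
  obtain ⟨Z0, hZ0⟩ : ∃ Z0 : Set ℤ, Z0 = (⋃ x ∈ (univ : Finset (Fin (m + 1) × Finset (Fin s))), Z x) ∪
    ⋃ l ∈ (univ : Finset (Fin s)), {t : ℤ | (D l).eval t = 0} := ⟨_, rfl⟩
  have hsub0 : ∀ x, Z x ⊆ Z0 := fun x => by
    rw [hZ0]
    exact (hsub x).trans Set.subset_union_left
  have hd1 : ∀ i t, (e₂ i).eval t - (e₁ i).eval t = (D₀ i * U (a i) (f i) 0).eval t := fun i t => by
    rw [← h12, eval_sub]
  have hd2 : ∀ i t, (e₃ i).eval t - (e₁ i).eval t = (D₀ i * U (a i) (f i) 1).eval t := fun i t => by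
    rw [← h13, eval_sub]
  have hd3 : ∀ i t, (e₂ i).eval t - (e₃ i).eval t = (D₀ i * U (a i) (f i) 2).eval t := fun i t => by
    rw [← hU, mul_sub, eval_sub, ← hd1, ← hd2]
    ring
  have hDz : ∀ t, t ∉ Z0 → ∀ l, (D l).eval t ≠ 0 := by
    intro t ht l h0
    refine ht ?_
    rw [hZ0]
    refine Or.inr ?_
    simp only [Set.mem_iUnion]
    exact ⟨l, mem_univ _, h0⟩
  have hdisc : ∀ t, t ∉ Z0 → ∀ i, 4 * (A i).eval t ^ 3 + 27 * (B i).eval t ^ 2 ≠ 0 := by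
    intro t ht i
    have h0 : ∀ k, (D₀ i * U (a i) (f i) k).eval t ≠ 0 := by
      intro k
      have h1 := hZ2 (i, ∅) t (fun h => ht (hsub0 _ h)) k
      simp only [prod_empty, mul_one] at h1
      exact h1
    refine Pool.Agent.TH841.PT.disc_of (he i t) ?_ ?_ ?_
    · rw [hd1]
      exact h0 0
    · rw [hd2]
      exact h0 1
    · rw [hd3]
      exact h0 2
  refine ⟨Z0, ?_, fun t ht => ⟨hdisc t ht, hDz t ht⟩, ?_⟩
  · rw [hZ0]
    exact Pool.Agent.TH841.PM.dz_union (Pool.Agent.TH841.PM.dz_iUnion _ _ fun x _ => hZ1 x) hZD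
  intro k L
  choose C hC0 hC using fun x : Fin (m + 1) × Finset (Fin s) =>
    hZ3 x (Fintype.card (Fin (m + 1) × Finset (Fin s)) * k) L
  refine ⟨∑ x, C x, fun N M hM hN F _ _ hF W hW => ?_⟩
  obtain ⟨S, hS⟩ : ∃ S : ℤ → Fin (m + 1) × Finset (Fin s) → ℝ, S = fun t x =>
    SN (((e₂ x.1).eval t - (e₁ x.1).eval t) * ∏ l ∈ x.2, (D l).eval t)
      (((e₃ x.1).eval t - (e₁ x.1).eval t) * ∏ l ∈ x.2, (D l).eval t) := ⟨_, rfl⟩
  have hS0 : ∀ t x, 0 ≤ S t x := by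
    intro t x
    rw [hS]
    exact SN_nonneg _ _
  have hPZ : ∀ t ∈ Par Z0 N M, t ∉ Z0 := fun t ht => (mem_filter.1 ht).2
  have hsum : ∑ t ∈ Par Z0 N M, (∏ x, S t x) ^ k ≤ (∑ x, C x) * M := by
    rw [sum_mul]
    refine le_trans ?_ (sum_le_sum fun x _ => hC x N M hM hN)
    refine (sum_le_sum fun t _ => Pool.Agent.TH841.NF.prod_pow_le _
      (fun x => hS0 t x) k).trans ?_
    rw [sum_comm]
    refine sum_le_sum fun x _ => ?_
    have h1 : ∀ t, S t x = SN (((D₀ x.1 * ∏ l ∈ x.2, D l) * Pool.Agent.TH841.TR.UP (a x.1) (f x.1)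
        0).eval t) (((D₀ x.1 * ∏ l ∈ x.2, D l) * Pool.Agent.TH841.TR.UP (a x.1) (f x.1) 1).eval t) := by
      intro t
      rw [hS]
      dsimp only
      rw [hd1, hd2, hUP, hUP]
      simp only [eval_mul, eval_prod]
      congr 1 <;> ring
    rw [sum_congr rfl fun t _ => by rw [h1 t]]
    refine sum_le_sum_of_subset_of_nonneg (fun t ht => ?_) fun t _ _ => pow_nonneg (SN_nonneg _ _) _
    exact mem_filter.2 ⟨(mem_filter.1 ht).1, fun h => hPZ t ht (hsub0 x h)⟩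
  have hone : ∀ t ∈ Par Z0 N M, ∀ i, ∀ q, HasDiv (W t i) q →
      (2 : ℝ) ^ (rk (W t i) + q) ≤ ∏ T : Finset (Fin s), S t (i, T) := by
    intro t ht i q hq
    have hg := hF t ht
    have hE := hdisc t (hPZ t ht) i
    rw [hW t] at hq ⊢
    have hne' : ∀ T : Finset (Fin s), ∏ l ∈ T, (D l).eval t ≠ 0 := fun T =>
      prod_ne_zero_iff.2 fun l _ => hDz t (hPZ t ht) l
    refine (Pool.Agent.TH841.NF.one_field (d := fun l => (D l).eval t) hg
      (fun l => hDz t (hPZ t ht) l) hE (fun T => S t (i, T)) ?_ ?_ hq)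
    · intro T
      have h1 := Pool.Agent.TH639.SL.sel_tw hE (he i t) (hne' T)
      have h2 := Pool.Agent.TH841.SH.bd_selR (Pool.Agent.TH639.SL.disc_tw (hne' T) hE)
        (Pool.Agent.TH639.SL.roots_tw (he i t) _) h1.1
      rw [hS]
      exact ⟨h2.1, h2.2.trans h1.2⟩
    · intro T
      exact Pool.Agent.W307.RG.fin_tw hE (he i t) (hne' T)
  have hbdd : ∀ t ∈ Par Z0 N M, ∀ i, BddAbove {q | HasDiv (W t i) q} := fun t ht i =>
    Pool.Agent.TH841.NF.bdd_of (hone t ht i)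
  have hwt : ∀ t ∈ Par Z0 N M, (2 : ℝ) ^ (∑ i, (rk (W t i) + crk (W t i))) ≤ ∏ x, S t x := by
    intro t ht
    rw [← prod_pow_eq_pow_sum, Fintype.prod_prod_type]
    exact prod_le_prod (fun i _ => by positivity) fun i _ =>
      hone t ht i _ (Pool.Agent.TH841.NF.crk_mem (hbdd t ht i))
  have hfin : ∑ t ∈ Par Z0 N M, ((2 : ℝ) ^ (∑ i, (rk (W t i) + crk (W t i)))) ^ k ≤
      (∑ x, C x) * M :=
    (sum_le_sum fun t ht => pow_le_pow_left₀ (by positivity) (hwt t ht) k).trans hsum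
  refine ⟨hbdd, hfin, fun r => ?_⟩
  rw [le_div_iff₀ (by positivity)]
  refine le_trans ?_ hfin
  refine le_trans ?_ (sum_le_sum_of_subset_of_nonneg (filter_subset (fun t =>
    r ≤ ∑ i, (rk (W t i) + crk (W t i))) (Par Z0 N M)) (fun t _ _ => by positivity))
  rw [← nsmul_eq_mul]
  refine card_nsmul_le_sum _ _ _ fun t ht => ?_
  rw [mul_comm k, pow_mul]
  exact pow_le_pow_left₀ (by positivity)
    (pow_le_pow_right₀ (by norm_num) (mem_filter.1 ht).2) k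

end Pool.Agent.Results.MP_78d38b_nt.JointPencilFields
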