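import Mathlib
import Pool.Agent.TH841.PT.Fin2

/-!
# Several curves over varying multiquadratic fields, at prime arguments

`E_i : y² = x³ + A_i x + B_i`, `i = 0, ..., m`, are elliptic curves with integer roots, `Q_i` and `D₁`, ...,
`D_s` nonzero polynomials and `G₀, ..., G_{r-1}` pairwise different irreducible polynomials with integer
coefficients. `W_{i,t}` is the quadratic twist of `E_i` by `Q_i(t)`, over `F_t = ℚ(√D₁(t), ..., √D_s(t))`.
For all `k` the sum of `2 ^ (k ∑ i, (rank + corank Ш[2 ^ ∞]))` over the `t` with `N < t ≤ N + M` for which all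
the `|G_j(t)|` are primes is at most `C M / (log M) ^ r`, uniformly for `|N| ≤ M ^ L`.
-/

set_option autoImplicit false

namespace Pool.Agent.Results.MP_78d38b_nt.JointPrimeFields

open Finset Polynomial

open Pool.Agent.TH841.NF.D (HasDiv crk rk)

open Pool.Agent.W307.SE (SelR)

/-- the curve `y² = x³ + A x + B` over `F` -/
def EF (A B : ℤ) (F : Type) [Field F] : WeierstrassCurve F := ⟨0, 0, 0, (A : F), (B : F)⟩

/-- the number field `F` is generated by square roots of the integers `d i` -/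
def Gen (F : Type) [Field F] [NumberField F] {s : ℕ} (d : Fin s → ℤ) : Prop :=
  ∃ x : Fin s → F, (∀ i, x i ^ 2 = (d i : F)) ∧
    IntermediateField.adjoin ℚ (Set.range x) = ⊤

open Classical in
/-- the integers `t` with `N < t ≤ N + M` that are not zeros of the polynomials `Q_i` and `D_i` and such
that all the `|G_j(t)|` are primes -/
noncomputable def Par {m s r : ℕ} (Q : Fin (m + 1) → ℤ[X]) (D : Fin s → ℤ[X]) (G : Fin r → ℤ[X])
    (N : ℤ) (M : ℕ) : Finset ℤ :=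
  (Ioc N (N + M)).filter (fun t => ((∀ i, (Q i).eval t ≠ 0) ∧ ∀ i, (D i).eval t ≠ 0) ∧
    ∀ j, ((G j).eval t).natAbs.Prime)

open Classical in
/-- **Theorem.** For `i = 0, ..., m` let `y² = (x - e₁) (x - e₂) (x - e₃) = x³ + A_i x + B_i` be elliptic
curves with integers `e₁`, `e₂`, `e₃` (depending on `i`), let `Q_i` and `D₁`, ..., `D_s` be nonzero
polynomials with integer coefficients, and `G₀, ..., G_{r-1}` pairwise non-associated irreducible
polynomials of positive degree with integer coefficients. Let `F t = ℚ(√D₁(t), ..., √D_s(t))` and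
`W t i` the quadratic twist of the curve `i` by `Q_i(t)`, over `F t`. For all `k` and `L` there is `C`
such that for all integers `M ≥ 2` and `|N| ≤ M ^ L` and the set `P` of the `t` with `N < t ≤ N + M`, not
a zero of one of the `Q_i` and `D_i`, for which all the `|G_j(t)|` are primes: the sum over `t` in `P` of
`2 ^ (k ∑ i, (rank W_{i,t}(F_t) + corank Ш(W_{i,t} / F_t)[2^∞]))` is at most `C M / (log M) ^ r`, and at
most `C M / (log M) ^ r / 2 ^ (k n)` of the `t` in `P` have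
`∑ i, (rank W_{i,t}(F_t) + corank Ш(W_{i,t} / F_t)[2^∞]) ≥ n`. -/
theorem result (m : ℕ) (A B e₁ e₂ e₃ : Fin (m + 1) → ℤ)
    (hE : ∀ i, 4 * A i ^ 3 + 27 * B i ^ 2 ≠ 0)
    (he : ∀ i, ∀ x : ℤ, x ^ 3 + A i * x + B i = (x - e₁ i) * (x - e₂ i) * (x - e₃ i))
    (Q : Fin (m + 1) → ℤ[X]) (hQ : ∀ i, Q i ≠ 0) (s : ℕ) (D : Fin s → ℤ[X]) (hD : ∀ i, D i ≠ 0)
    (r : ℕ) (G : Fin r → ℤ[X]) (hG : ∀ j, Irreducible (G j) ∧ 0 < (G j).natDegree)
    (hG' : ∀ i j, i ≠ j → ¬ Associated (G i) (G j)) (k L : ℕ) :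
    ∃ C : ℝ, ∀ (N : ℤ) (M : ℕ), 2 ≤ M → |N| ≤ (M : ℤ) ^ L →
      ∀ (F : ℤ → Type) [∀ t, Field (F t)] [∀ t, NumberField (F t)],
      (∀ t ∈ Par Q D G N M, Gen (F t) (fun i => (D i).eval t)) →
      ∀ W : ∀ t, Fin (m + 1) → WeierstrassCurve (F t),
      (∀ t i, W t i = EF ((Q i).eval t ^ 2 * A i) ((Q i).eval t ^ 3 * B i) (F t)) →
      (∀ t ∈ Par Q D G N M, ∀ i, BddAbove {q | HasDiv (W t i) q}) ∧
      ∑ t ∈ Par Q D G N M, ((2 : ℝ) ^ (∑ i, (rk (W t i) + crk (W t i)))) ^ k ≤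
        C * (M / (Real.log M) ^ r) ∧
      ∀ n : ℕ, (((Par Q D G N M).filter
        (fun t => n ≤ ∑ i, (rk (W t i) + crk (W t i)))).card : ℝ) ≤
        C * (M / (Real.log M) ^ r) / 2 ^ (k * n) := by
  have hirr : Pool.Agent.TH841.PT.Irr G := ⟨fun i => (hG i).1, fun i => (hG i).2, hG'⟩
  have hne : ∀ x : Fin (m + 1) × Finset (Fin s), Q x.1 * ∏ i ∈ x.2, D i ≠ 0 := fun x =>
    mul_ne_zero (hQ x.1) (prod_ne_zero_iff.2 fun i _ => hD i)
  choose C _ hC using fun x : Fin (m + 1) × Finset (Fin s) =>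
    Pool.Agent.TH841.PT.sel_prime Pool.Agent.TH841.PT.avh hirr (hE x.1) (he x.1)
      (Q x.1 * ∏ i ∈ x.2, D i) (hne x) (Fintype.card (Fin (m + 1) × Finset (Fin s)) * k) L
  refine ⟨∑ x, C x, fun N M hM hN F _ _ hF W hW => ?_⟩
  have hev : ∀ (x : Fin (m + 1) × Finset (Fin s)) (t : ℤ), (Q x.1 * ∏ i ∈ x.2, D i).eval t =
      (Q x.1).eval t * ∏ i ∈ x.2, (D i).eval t := by
    intro x t
    rw [eval_mul, eval_prod]
  obtain ⟨S, hS⟩ : ∃ S : ℤ → Fin (m + 1) × Finset (Fin s) → ℝ, S = fun t x =>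
    ((SelR (((Q x.1 * ∏ i ∈ x.2, D i).eval t) ^ 2 * A x.1)
      (((Q x.1 * ∏ i ∈ x.2, D i).eval t) ^ 3 * B x.1)).ncard : ℝ) := ⟨_, rfl⟩
  have hS0 : ∀ t x, 0 ≤ S t x := by
    intro t x
    rw [hS]
    exact Nat.cast_nonneg _
  have hsum : ∑ t ∈ Par Q D G N M, (∏ x, S t x) ^ k ≤ (∑ x, C x) * (M / (Real.log M) ^ r) := by
    rw [sum_mul]
    refine le_trans ?_ (sum_le_sum fun x _ => hC x N M hM hN)
    refine (sum_le_sum fun t _ => Pool.Agent.TH841.NF.prod_pow_le _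
      (fun x => hS0 t x) k).trans ?_
    rw [sum_comm]
    refine sum_le_sum fun x _ => ?_
    rw [hS]
    refine sum_le_sum_of_subset_of_nonneg ?_ (fun t _ _ => by positivity)
    intro t ht
    unfold Par at ht
    rw [mem_filter] at ht ⊢
    refine ⟨ht.1, ?_, ht.2.2⟩
    rw [hev]
    exact mul_ne_zero (ht.2.1.1 _) (prod_ne_zero_iff.2 fun i _ => ht.2.1.2 i)
  have hone : ∀ t ∈ Par Q D G N M, ∀ i, ∀ q, HasDiv (W t i) q →
      (2 : ℝ) ^ (rk (W t i) + q) ≤ ∏ T : Finset (Fin s), S t (i, T) := by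
    intro t ht i q hq
    have hg := hF t ht
    have ht' := (mem_filter.1 ht).2.1
    rw [hW t] at hq ⊢
    have hne' : ∀ T : Finset (Fin s), (Q i * ∏ i ∈ T, D i).eval t ≠ 0 := by
      intro T
      rw [hev (i, T)]
      exact mul_ne_zero (ht'.1 i) (prod_ne_zero_iff.2 fun i _ => ht'.2 i)
    have e2 : ∀ T : Finset (Fin s), (∏ i ∈ T, (D i).eval t) ^ 2 *
        ((Q i).eval t ^ 2 * A i) = ((Q i * ∏ i ∈ T, D i).eval t) ^ 2 * A i := by
      intro T
      rw [hev (i, T)]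
      ring
    have e3 : ∀ T : Finset (Fin s), (∏ i ∈ T, (D i).eval t) ^ 3 *
        ((Q i).eval t ^ 3 * B i) = ((Q i * ∏ i ∈ T, D i).eval t) ^ 3 * B i := by
      intro T
      rw [hev (i, T)]
      ring
    refine (Pool.Agent.TH841.NF.one_field (d := fun i => (D i).eval t) hg
      (fun i => ht'.2 i) (Pool.Agent.TH639.SL.disc_tw (ht'.1 i) (hE i))
      (fun T => S t (i, T)) ?_ ?_ hq)
    · intro T
      rw [e2, e3, hS]
      exact Pool.Agent.TH841.SH.bd_selR (Pool.Agent.TH639.SL.disc_tw (hne' T) (hE i))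
        (Pool.Agent.TH639.SL.roots_tw (he i) _) (Pool.Agent.TH639.SL.sel_tw (hE i) (he i) (hne' T)).1
    · intro T
      rw [e2, e3]
      exact Pool.Agent.W307.RG.fin_tw (hE i) (he i) (hne' T)
  have hbdd : ∀ t ∈ Par Q D G N M, ∀ i, BddAbove {q | HasDiv (W t i) q} := fun t ht i =>
    Pool.Agent.TH841.NF.bdd_of (hone t ht i)
  have hwt : ∀ t ∈ Par Q D G N M, (2 : ℝ) ^ (∑ i, (rk (W t i) + crk (W t i))) ≤ ∏ x, S t x := by
    intro t ht
    rw [← prod_pow_eq_pow_sum, Fintype.prod_prod_type]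
    exact prod_le_prod (fun i _ => by positivity) fun i _ =>
      hone t ht i _ (Pool.Agent.TH841.NF.crk_mem (hbdd t ht i))
  have hfin : ∑ t ∈ Par Q D G N M, ((2 : ℝ) ^ (∑ i, (rk (W t i) + crk (W t i)))) ^ k ≤
      (∑ x, C x) * (M / (Real.log M) ^ r) :=
    (sum_le_sum fun t ht => pow_le_pow_left₀ (by positivity) (hwt t ht) k).trans hsum
  refine ⟨hbdd, hfin, fun n => ?_⟩
  rw [le_div_iff₀ (by positivity)]
  refine le_trans ?_ hfin
  refine le_trans ?_ (sum_le_sum_of_subset_of_nonneg (filter_subset (fun t =>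
    n ≤ ∑ i, (rk (W t i) + crk (W t i))) (Par Q D G N M)) (fun t _ _ => by positivity))
  rw [← nsmul_eq_mul]
  refine card_nsmul_le_sum _ _ _ fun t ht => ?_
  rw [mul_comm k, pow_mul]
  exact pow_le_pow_left₀ (by positivity)
    (pow_le_pow_right₀ (by norm_num) (mem_filter.1 ht).2) k

end Pool.Agent.Results.MP_78d38b_nt.JointPrimeFields
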