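import Pool.Agent.Results.MP_78d38b_nt.JointPencilFields
import Pool.Agent.V11109.TWI.Basic
import Pool.Agent.V11109.MOM.Conv

/-!
# Several pencils over varying multiquadratic fields at the terms of sparse sequences

`W_{i,t} : y² = (x - e_{i,1}(t)) (x - e_{i,2}(t)) (x - e_{i,3}(t))`, `i = 0, ..., m`, are pencils of elliptic
curves as in the hand-in `JointPencilFields`: the differences of the roots are the products of a common
twisting polynomial `D₀_i(t)` and of `n_{i,0}`, `n_{i,1}`, `n_{i,2}` pairwise different irreducible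
polynomials, with `2 n_{i,k}` smaller than `n_{i,0} + n_{i,1} + n_{i,2}`. Let
`F_t = ℚ(√D₁(t), ..., √D_s(t))`.

Let `c > 1` be a real number. There is a set `A₀` of real numbers of Hausdorff dimension smaller than one
such that for all `α > 0` outside `A₀` and all such data the following holds, with `t = ⌊α j ^ c⌋`: for every
`k` the proportion of the `j ≤ N` for which the sum over `i` of `rank W_{i,t}(F_t)` and of the corank of
`Ш(W_{i,t} / F_t)[2^∞]` is at least `r` (or for which a curve is singular) is at most `C_k / 2 ^ (k r)`, for all large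
`N`, with constants `C_k` that do not depend on `α` and `r`.
-/

set_option autoImplicit false

namespace Pool.Agent.Results.MP_78d38b_nt.SparsePencils

open Finset Polynomial

open Pool.Agent.TH841.NF.D (HasDiv crk rk)
open Pool.Agent.Results.MP_78d38b_nt.JointPencilFields (EF Gen U DZ Par)
open Pool.Agent.V11109.TWI (NFld exists_gen countable_poly)
open Pool.Agent.V11109.MOM (cnt cnt_mono int_sets)

/-- the terms of the sequence -/
noncomputable def term (c α : ℝ) (j : ℕ) : ℤ := ((⌊α * (j : ℝ) ^ c⌋₊ : ℕ) : ℤ)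

/-- The curves `W_i : y² = x³ + a_i x + b_i` over the field `F` are elliptic curves, for all of them the
number of copies of `ℚ₂ / ℤ₂` in `Ш(W_i / F)` is bounded, and the sum of the ranks of the `W_i(F)` and of
the coranks of the `Ш(W_i / F)[2^∞]` is smaller than `r`. -/
def Small {m : ℕ} (r : ℕ) (a b : Fin (m + 1) → ℤ) (F : Type) [Field F] [NumberField F] : Prop :=
  (∀ i, 4 * a i ^ 3 + 27 * b i ^ 2 ≠ 0) ∧
    (∀ i, BddAbove {q | HasDiv (EF (a i) (b i) F) q}) ∧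
    ∑ i, (rk (EF (a i) (b i) F) + crk (EF (a i) (b i) F)) < r

/-- the hypotheses on the pencils and on the fields -/
structure Data (m s : ℕ) (A B : Fin (m + 1) → ℤ[X]) (D : Fin s → ℤ[X]) where
  /-- numbers of factors -/
  n : Fin (m + 1) → Fin 3 → ℕ
  /-- constants -/
  a : Fin (m + 1) → Fin 3 → ℤ
  /-- irreducible factors -/
  f : ∀ (i : Fin (m + 1)) (k : Fin 3), Fin (n i k) → ℤ[X]
  ha : ∀ i k, a i k ≠ 0
  hf : ∀ i k j, Irreducible (f i k j) ∧ 0 < (f i k j).natDegree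
  hf' : ∀ i k j k' j', (⟨k, j⟩ : Σ k : Fin 3, Fin (n i k)) ≠ ⟨k', j'⟩ →
      ¬ Associated (f i k j) (f i k' j')
  hU : ∀ i, U (a i) (f i) 0 - U (a i) (f i) 1 = U (a i) (f i) 2
  hn : ∀ i k, 2 * n i k < n i 0 + n i 1 + n i 2
  /-- the twists -/
  D₀ : Fin (m + 1) → ℤ[X]
  hD₀ : ∀ i, D₀ i ≠ 0
  hDf₀ : ∀ i k j, ¬ f i k j ∣ D₀ i
  hD : ∀ l, D l ≠ 0
  hDf : ∀ l i k j, ¬ f i k j ∣ D l
  /-- the roots -/
  e₁ : Fin (m + 1) → ℤ[X]
  /-- the roots -/
  e₂ : Fin (m + 1) → ℤ[X]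
  /-- the roots -/
  e₃ : Fin (m + 1) → ℤ[X]
  he : ∀ i, ∀ t x : ℤ, x ^ 3 + (A i).eval t * x + (B i).eval t =
      (x - (e₁ i).eval t) * (x - (e₂ i).eval t) * (x - (e₃ i).eval t)
  h12 : ∀ i, e₂ i - e₁ i = D₀ i * U (a i) (f i) 0
  h13 : ∀ i, e₃ i - e₁ i = D₀ i * U (a i) (f i) 1

/-- the bad sets of integers -/
def P {m s : ℕ} (A B : Fin (m + 1) → ℤ[X]) (D : Fin s → ℤ[X]) (r : ℕ) : Set ℤ :=
  {t : ℤ | ∃ F : NFld, Gen F.K (fun l => (D l).eval t) ∧
    ¬ Small r (fun i => (A i).eval t) (fun i => (B i).eval t) F.K}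

open Classical in
/-- the number of bad integers up to `X` -/
lemma count {m s : ℕ} {A B : Fin (m + 1) → ℤ[X]} {D : Fin s → ℤ[X]} (hd : Data m s A B D) (k : ℕ) :
    ∃ C : ℝ, ∀ r : ℕ, ∀ ε : ℝ, 0 < ε → ∃ X₀ : ℕ, ∀ X : ℕ, X₀ ≤ X →
      (((Ioc (0 : ℤ) (0 + (X : ℤ))).filter (fun t => t ∈ P A B D r)).card : ℝ) ≤
        (C / 2 ^ (k * r) + ε) * X := by
  obtain ⟨Z, hZ1, hZ2, hZ3⟩ := JointPencilFields.result m hd.n hd.a hd.f hd.ha hd.hf hd.hf' hd.hU
    hd.hn hd.D₀ hd.hD₀ hd.hDf₀ s D hd.hD hd.hDf A B hd.e₁ hd.e₂ hd.e₃ hd.he hd.h12 hd.h13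
  obtain ⟨C, hC⟩ := hZ3 k 0
  refine ⟨C, fun r ε hε => ?_⟩
  obtain ⟨X₀, hX₀⟩ := hZ1 0 ε hε
  refine ⟨max X₀ 1, fun X hX => ?_⟩
  have hX1 : 1 ≤ X := (le_max_right _ _).trans hX
  have h1 := hX₀ 0 X ((le_max_left _ _).trans hX) (by simp)
  have hchoice : ∀ t : ℤ, ∃ F : NFld, Gen F.K (fun l => (D l).eval t) ∧
      (t ∈ P A B D r → ¬ Small r (fun i => (A i).eval t) (fun i => (B i).eval t) F.K) := by
    intro t
    by_cases h : t ∈ P A B D r
    · obtain ⟨F, hF, hr⟩ := h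
      exact ⟨F, hF, fun _ => hr⟩
    · obtain ⟨F, x, hx, hx'⟩ := exists_gen (fun l => (D l).eval t)
      exact ⟨F, ⟨x, hx, hx'⟩, fun h' => absurd h' h⟩
  choose Fb hFb hFb' using hchoice
  obtain ⟨h2, _, h3⟩ := hC 0 X hX1 (by simp) (fun t => (Fb t).K) (fun t _ => hFb t)
    (fun t i => EF ((A i).eval t) ((B i).eval t) (Fb t).K) (fun _ _ => rfl)
  have h4 := h3 r
  have hsub : (Ioc (0 : ℤ) (0 + (X : ℤ))).filter (fun t => t ∈ P A B D r) ⊆
      (Ioc (0 : ℤ) (0 + (X : ℤ))).filter (fun t => t ∈ Z) ∪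
        (Par Z 0 X).filter (fun t => r ≤ ∑ i, (rk (EF ((A i).eval t) ((B i).eval t) (Fb t).K) +
          crk (EF ((A i).eval t) ((B i).eval t) (Fb t).K))) := by
    intro t ht
    rw [Finset.mem_filter] at ht
    rw [Finset.mem_union, Finset.mem_filter, Finset.mem_filter]
    by_cases hZt : t ∈ Z
    · exact Or.inl ⟨ht.1, hZt⟩
    · have hpar : t ∈ Par Z 0 X := by
        unfold JointPencilFields.Par
        rw [Finset.mem_filter]
        exact ⟨ht.1, hZt⟩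
      refine Or.inr ⟨hpar, ?_⟩
      by_contra hcon
      exact hFb' t ht.2 ⟨(hZ2 t hZt).1, fun i => h2 t hpar i, not_le.1 hcon⟩
  have h5 := (Finset.card_le_card hsub).trans (Finset.card_union_le _ _)
  have h6 : (((Ioc (0 : ℤ) (0 + (X : ℤ))).filter (fun t => t ∈ P A B D r)).card : ℝ) ≤
      (((Ioc (0 : ℤ) (0 + (X : ℤ))).filter (fun t => t ∈ Z)).card : ℝ) +
        (((Par Z 0 X).filter (fun t => r ≤ ∑ i, (rk (EF ((A i).eval t) ((B i).eval t) (Fb t).K) +
          crk (EF ((A i).eval t) ((B i).eval t) (Fb t).K)))).card : ℝ) := by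
    exact_mod_cast h5
  calc _ ≤ _ := h6
    _ ≤ ε * X + C * X / 2 ^ (k * r) := add_le_add h1 h4
    _ = (C / 2 ^ (k * r) + ε) * X := by ring

/-- **Main result.** For every real `c > 1` there is a set `A₀` of Hausdorff dimension smaller than one
such that for all data as above there are constants `C_k` with the following property: for all `α > 0`
outside `A₀`, all `k` and `r` and all large `N`, for all but at most `C_k N / 2 ^ (k r)` of the `j ≤ N`,
at `t = ⌊α j ^ c⌋` and for `F = ℚ(√D₁(t), ..., √D_s(t))`, the curves `W_{i,t}` are elliptic curves, the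
coranks of the `Ш(W_{i,t} / F)[2^∞]` are finite, and the sum over `i` of the ranks of `W_{i,t}(F)` and of
these coranks is smaller than `r`. -/
theorem result (c : ℝ) (hc : 1 < c) : ∃ A₀ : Set ℝ, dimH A₀ < 1 ∧
    ∀ (m s : ℕ) (A B : Fin (m + 1) → ℤ[X]) (D : Fin s → ℤ[X]), Nonempty (Data m s A B D) →
      ∃ C : ℕ → ℝ, ∀ α : ℝ, 0 < α → α ∉ A₀ →
        ∀ (F : ℕ → Type) [∀ j, Field (F j)] [∀ j, NumberField (F j)],
        (∀ j : ℕ, Gen (F j) (fun l => (D l).eval (term c α j))) →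
        ∀ k r : ℕ, ∃ N₀ : ℕ, ∀ N : ℕ, N₀ ≤ N →
          (cnt N (fun j => ¬ Small r (fun i => (A i).eval (term c α j))
            (fun i => (B i).eval (term c α j)) (F j)) : ℝ) ≤ C k / 2 ^ (k * r) * N := by
  classical
  have hcp := countable_poly
  obtain ⟨A₀, hA₀, hmain⟩ := int_sets c hc
    (fun v : (Σ m : ℕ, Σ s : ℕ, (Fin (m + 1) → ℤ[X]) × (Fin (m + 1) → ℤ[X]) × (Fin s → ℤ[X]) × ℕ) =>
      P v.2.2.1 v.2.2.2.1 v.2.2.2.2.1 v.2.2.2.2.2)
  refine ⟨A₀, hA₀, fun m s A B D ⟨hd⟩ => ?_⟩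
  choose C hC using count hd
  refine ⟨fun k => C k + 1, fun α hα hαA F _ _ hF k r => ?_⟩
  obtain ⟨N₀, hN₀⟩ := hmain α hα hαA ⟨m, s, A, B, D, r⟩ (C k / 2 ^ (k * r) + 1 / 2 ^ (k * r) / 2)
    (1 / 2 ^ (k * r) / 2) (by positivity) (hC k r _ (by positivity))
  refine ⟨N₀, fun N hN => ?_⟩
  have h1 := hN₀ N hN
  have h2 : cnt N (fun j => ¬ Small r (fun i => (A i).eval (term c α j))
      (fun i => (B i).eval (term c α j)) (F j)) ≤
      cnt N (fun j : ℕ => ((⌊α * (j : ℝ) ^ c⌋₊ : ℕ) : ℤ) ∈ P A B D r) :=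
    cnt_mono fun j _ hj => ⟨⟨F j, inferInstance, inferInstance⟩, hF j, hj⟩
  calc _ ≤ _ := (Nat.cast_le (α := ℝ)).2 h2
    _ ≤ _ := h1
    _ = _ := by ring

end Pool.Agent.Results.MP_78d38b_nt.SparsePencils
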